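import Pool.Agent.Helper47_Orient.Defs
import Pool.Agent.Helper47_Orient.Reduction
import Pool.Agent.Helper47_Orient.Family
import Pool.Agent.Helper47_Orient.Count

/-!
# Directed graphs with full decomposition family but too many free orientations
-/

namespace Pool.Agent.Results.MP_d8cc50_co.Disproof

open SimpleGraph Pool.Agent.Helper47_Orient

lemma ex_bound (n : ℕ) (hn : 10 ^ 20 ≤ n) :
    (extremalNumber n gr : ℝ) ≤ (n : ℝ) ^ 2 / 4 + 0.53 * n := by
  classical
  have h0 : (0 : ℝ) ≤ (n : ℝ) ^ 2 / 4 + 0.53 * n := by positivity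
  have h1 : extremalNumber (Fintype.card (Fin n)) gr ≤ ⌊(n : ℝ) ^ 2 / 4 + 0.53 * n⌋₊ := by
    rw [extremalNumber_le_iff]
    intro G _ hG
    apply Nat.le_floor
    have h2 : ¬ Config G := fun h => hG (gr_contained_of_config h)
    have h3 := extremal_bound G h2 (by rw [Fintype.card_fin]; exact hn)
    rw [Fintype.card_fin] at h3
    exact h3
  rw [Fintype.card_fin] at h1
  calc (extremalNumber n gr : ℝ) ≤ (⌊(n : ℝ) ^ 2 / 4 + 0.53 * n⌋₊ : ℝ) := by exact_mod_cast h1
    _ ≤ _ := Nat.floor_le h0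

lemma maxFree_bound (n : ℕ) (hn : 10 ^ 20 ≤ n) :
    (2 : ℝ) ^ ((extremalNumber n gr : ℝ) + n / 20) ≤ (maxFree n arc : ℝ) := by
  obtain ⟨k, hk⟩ : ∃ k, n = k + 2 := ⟨n - 2, by omega⟩
  set a := k / 2 with ha
  set b := k - k / 2 with hb
  have hab : a + b = k := by omega
  have h1 := maxFree_lower n a b (by omega)
  rw [hab] at h1
  have h2 : ((3 ^ k * 2 ^ (a * b) : ℕ) : ℝ) ≤ (maxFree n arc : ℝ) := by exact_mod_cast h1
  refine le_trans ?_ h2
  push_cast
  have h3 : (2 : ℝ) ^ ((19 / 12 : ℝ) * k) ≤ 3 ^ k := by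
    have h4 : (2 : ℝ) ^ (19 / 12 : ℝ) ≤ 3 := by
      have h5 : ((2 : ℝ) ^ (19 / 12 : ℝ)) ^ (12 : ℕ) ≤ 3 ^ (12 : ℕ) := by
        rw [← Real.rpow_natCast, ← Real.rpow_mul (by norm_num)]
        norm_num
      exact le_of_pow_le_pow_left₀ (by norm_num) (by norm_num) h5
    rw [Real.rpow_mul (by norm_num), Real.rpow_natCast]
    exact pow_le_pow_left₀ (by positivity) h4 k
  have h6 : (2 : ℝ) ^ (((a * b : ℕ) : ℝ)) = 2 ^ (a * b) := Real.rpow_natCast _ _
  have h7 : (((k : ℝ) ^ 2 - 1) / 4) ≤ ((a * b : ℕ) : ℝ) := by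
    have h8 : (k : ℤ) ^ 2 ≤ 4 * ((a : ℤ) * b) + 1 := by
      rcases Nat.even_or_odd' k with ⟨c, hc | hc⟩
      · have h9 : a = c := by omega
        have h10 : b = c := by omega
        rw [h9, h10, hc]
        push_cast
        nlinarith
      · have h9 : a = c := by omega
        have h10 : b = c + 1 := by omega
        rw [h9, h10, hc]
        push_cast
        nlinarith
    have h11 : (k : ℝ) ^ 2 ≤ 4 * ((a : ℝ) * b) + 1 := by exact_mod_cast h8
    push_cast
    linarith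
  calc (2 : ℝ) ^ ((extremalNumber n gr : ℝ) + n / 20)
      ≤ (2 : ℝ) ^ ((19 / 12 : ℝ) * k + ((a * b : ℕ) : ℝ)) := by
        apply Real.rpow_le_rpow_of_exponent_le (by norm_num)
        have h12 := ex_bound n hn
        have h13 : (n : ℝ) = k + 2 := by rw [hk]; push_cast; ring
        have h14 : (10 : ℝ) ^ 20 ≤ n := by exact_mod_cast hn
        have h15 : (k : ℝ) = n - 2 := by linarith
        rw [h15] at h7 ⊢
        nlinarith
    _ = (2 : ℝ) ^ ((19 / 12 : ℝ) * k) * (2 : ℝ) ^ (((a * b : ℕ) : ℝ)) := by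
        rw [Real.rpow_add (by norm_num)]
    _ ≤ 3 ^ k * 2 ^ (a * b) := by
        rw [h6]
        exact mul_le_mul_of_nonneg_right h3 (by positivity)

/-- There is an orientation `A` of a graph `H` on six vertices with at least one edge such that
every orientation of every member of the decomposition family of `H` belongs to the decomposition
family of `A`, and nevertheless `D(n, A) ≥ 2 ^ (ex(n, H) + n / 20)` for all large `n`. -/
theorem result :
    ∃ (H : SimpleGraph (Fin 6)) (A : Fin 6 → Fin 6 → Prop),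
      IsOrientation H A ∧ (∃ u v, H.Adj u v) ∧ FullFamily H A ∧
      ∃ n₀ : ℕ, ∀ n : ℕ, n₀ ≤ n →
        (2 : ℝ) ^ ((extremalNumber n H : ℝ) + n / 20) ≤ (maxFree n A : ℝ) :=
  ⟨gr, arc, arc_isOrientation, ⟨0, 1, by decide⟩, fullFamily_gr, 10 ^ 20, maxFree_bound⟩

/-- The question has a negative answer. -/
theorem not_question : ¬ Question := by
  intro hQ
  obtain ⟨H, A, h1, h2, h3, n₀, h4⟩ := result
  obtain ⟨n₁, h5⟩ := hQ (Fin 6) H A h1 h2 h3
  have h6 := h4 (n₀ + n₁ + 1) (by omega)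
  rw [h5 (n₀ + n₁ + 1) (by omega)] at h6
  push_cast at h6
  rw [← Real.rpow_natCast, Real.rpow_le_rpow_left_iff (by norm_num)] at h6
  have h7 : (0 : ℝ) ≤ n₀ := by positivity
  have h8 : (0 : ℝ) ≤ n₁ := by positivity
  linarith

end Pool.Agent.Results.MP_d8cc50_co.Disproof
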